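import Pool.Agent.Helper90_CRP.AePoint2
import Pool.Agent.Helper75_CRT.Final

/-!
# MP_46529f_an: almost everywhere there is no common return

`TransAtlas M` (file `Pool/Agent/CRP/Defs.lean`): an atlas of the space `M` with charts in the plane
which differ locally by translations.  For a translation surface `(X, ω)` of any genus `M` is `X`
without the zeros of `ω`, the charts are the local primitives of `ω`.  `A.deform g`: the charts are
followed by the linear map `g`, that is the surface `g · (X, ω)`.  `Straight A v I c`: `c` is a
straight path of velocity `v` on `I`, so for `v = (cos θ, sin θ)` it is an orbit of the flow `F_θ`.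
`CommonReturn A p`: there are times `t n → ∞` with `F_θ^(t n) (p) → p` for almost every `θ`.
-/

namespace Pool.Agent.Results.MP_46529f_an.NoCommonReturnAlmostEverywhere

open MeasureTheory Filter Topology Set Pool.Agent.CRP

/-- Let `M` be a surface with a translation atlas `A` and `ν` a measure on `M`.  For Lebesgue almost
every `g ∈ GL₂(ℝ)` (given by its columns `z.1`, `z.2`) and `ν`-almost every point `p` (`ν = δ_p`: any
given point), `p` is not a common return point of the deformed surface `g · M`; even more, for
every point `q` and every interval `(α, β)` of directions there are a neighbourhood `U` of `q` and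
`η > 0` such that for all large `t` the set of the directions `θ ∈ (α, β)` with `F_θ^t (p) ∈ U` has
measure at most `β - α - η`. -/
theorem result {M : Type*} [TopologicalSpace M] [T2Space M]
    [SecondCountableTopology M] [MeasurableSpace M] [BorelSpace M] (A : TransAtlas M)
    (ν : Measure M) [SFinite ν] :
    ∀ᵐ z : (ℝ × ℝ) × (ℝ × ℝ), ∀ g : (ℝ × ℝ) ≃L[ℝ] (ℝ × ℝ), g (1, 0) = z.1 → g (0, 1) = z.2 →
      ∀ᵐ p ∂ν, ¬ CommonReturn (A.deform g) p ∧
        ∀ (q : M) (α β : ℝ), α < β → ∃ U ∈ 𝓝 q, ∃ η > 0, ∃ T : ℝ, ∀ t ≥ T,
          volume {θ : ℝ | θ ∈ Ioo α β ∧ ∃ c : ℝ → M, c 0 = p ∧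
            Straight (A.deform g) (Real.cos θ, Real.sin θ) (Icc 0 t) c ∧ c t ∈ U}
              ≤ ENNReal.ofReal (β - α - η) :=
  H90.main_final Pool.Agent.CRT.H75.an A ν

end Pool.Agent.Results.MP_46529f_an.NoCommonReturnAlmostEverywhere
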